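import Mathlib
import Pool.Graph.R_seed8.W254.PA.App

set_option autoImplicit false
set_option linter.unusedSectionVars false

/-!
# Linear relations with coefficients in a finite dimensional space between logarithms which are
linearly independent modulo a finite dimensional space: general fields
-/

namespace Pool.Agent.H594.PD

open Module Finset
open Pool.Agent.W254.PA (Hyp LtE)
open Pool.Agent.W254.Ab (QA mem_QA)

variable {Ω : Type} [Field Ω] [CharZero Ω]

/-- the properties of the space of the logarithms of algebraic numbers which are used: the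
hyperplane theorem and Baker's theorem -/
structure LogData (S : Submodule ℚ Ω) : Prop where
  hyp : Hyp (LtE (S : Set Ω))
  opt : ∀ {ι : Type} (l : ι → Ω), (∀ i, l i ∈ S) → LinearIndependent ℚ l →
    LinearIndependent (QA Ω) (fun o : Option ι => o.elim 1 l)

theorem qsmul (c : QA Ω) (z : Ω) : c • z = (c : Ω) * z := by
  rw [Algebra.smul_def]
  rfl

variable {S : Submodule ℚ Ω}

theorem lt_one : (1 : Ω) ∈ LtE (S : Set Ω) := Submodule.subset_span (Or.inl rfl)

theorem lt_log {l : Ω} (hl : l ∈ S) : l ∈ LtE (S : Set Ω) := Submodule.subset_span (Or.inr hl)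

theorem lt_mul {a z : Ω} (ha : IsAlgebraic ℚ a) (hz : z ∈ LtE (S : Set Ω)) :
    a * z ∈ LtE (S : Set Ω) := by
  have h := (LtE (S : Set Ω)).smul_mem (⟨a, mem_QA.2 ha⟩ : QA Ω) hz
  rwa [qsmul] at h

theorem lt_alg {a : Ω} (ha : IsAlgebraic ℚ a) : a ∈ LtE (S : Set Ω) := by
  have h := lt_mul ha (lt_one (S := S))
  rwa [mul_one] at h

/-- the relations with coefficients `x` -/
noncomputable def relS (S : Submodule ℚ Ω) {d : ℕ} (x : Fin d → Ω) : Submodule (QA Ω) (Fin d → Ω) where
  carrier := {a | (∀ i, a i ∈ LtE (S : Set Ω)) ∧ ∑ i, x i * a i = 0}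
  add_mem' := by
    rintro a b ⟨h1, h2⟩ ⟨h3, h4⟩
    refine ⟨fun i => (LtE (S : Set Ω)).add_mem (h1 i) (h3 i), ?_⟩
    simp only [Pi.add_apply, mul_add, Finset.sum_add_distrib, h2, h4, add_zero]
  zero_mem' := ⟨fun i => (LtE (S : Set Ω)).zero_mem, by simp⟩
  smul_mem' := by
    rintro c a ⟨h1, h2⟩
    refine ⟨fun i => (LtE (S : Set Ω)).smul_mem c (h1 i), ?_⟩
    have h3 : ∀ i, x i * (c • a) i = (c : Ω) * (x i * a i) := by
      intro i
      rw [Pi.smul_apply, qsmul]
      ring
    simp only [h3]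
    rw [← Finset.mul_sum, h2, mul_zero]

theorem relS_fin (hS : LogData S) {d : ℕ} (x : Fin d → Ω) (hx : LinearIndependent (QA Ω) x) :
    Module.Finite (QA Ω) (relS S x) := by
  rw [← Module.rank_lt_aleph0_iff]
  refine lt_of_le_of_lt (rank_le (n := d * (d - 1)) fun s hs => ?_) (Cardinal.natCast_lt_aleph0)
  have h1 := Pool.Agent.W254.Ab.hyperplane' hS.hyp (κ := s) d x (fun i j => (j : relS S x).1 i) hx
    (fun i j => (j : relS S x).2.1 i) (fun j => (j : relS S x).2.2) (by
      have h2 := hs.map' (relS S x).subtype (relS S x).ker_subtype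
      exact h2)
  rwa [Fintype.card_coe] at h1

/-- all coordinates of all relations are in a space of finite dimension -/
theorem exists_W (hS : LogData S) {d : ℕ} (x : Fin d → Ω) (hx : LinearIndependent (QA Ω) x) :
    ∃ W : Submodule (QA Ω) Ω, W.FG ∧ W ≤ LtE (S : Set Ω) ∧ ∀ a : Fin d → Ω, (∀ i, a i ∈ LtE (S : Set Ω)) →
      ∑ i, x i * a i = 0 → ∀ i, a i ∈ W := by
  have hfin := relS_fin hS x hx
  refine ⟨⨆ i, (relS S x).map (LinearMap.proj i), ?_, ?_, ?_⟩
  · refine Submodule.fg_iSup _ fun i => ?_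
    exact ((Module.Finite.iff_fg).1 hfin).map _
  · refine iSup_le fun i => ?_
    rintro _ ⟨a, ha, rfl⟩
    exact ha.1 i
  · intro a h1 h2 i
    exact (le_iSup (fun i => (relS S x).map (LinearMap.proj (R := (QA Ω)) (φ := fun _ => Ω) i)) i)
      ⟨a, ⟨h1, h2⟩, rfl⟩

/-- finitely many logarithms suffice for a space of finite dimension -/
theorem exists_B (W : Submodule (QA Ω) Ω) (hW : W.FG) (hWL : W ≤ LtE (S : Set Ω)) :
    ∃ B : Finset Ω, (∀ b ∈ B, b ∈ S) ∧
      W ≤ Submodule.span (QA Ω) ({1} ∪ (B : Set Ω)) := by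
  classical
  obtain ⟨G, rfl⟩ := hW
  have h1 : ∀ z : Ω, ∃ B : Finset Ω, (∀ b ∈ B, b ∈ S) ∧
      (z ∈ G → z ∈ Submodule.span (QA Ω) ({1} ∪ (B : Set Ω))) := by
    intro z
    by_cases hz : z ∈ G
    · have h2 : z ∈ LtE (S : Set Ω) := hWL (Submodule.subset_span hz)
      obtain ⟨T, hT1, hT2⟩ := Submodule.mem_span_finite_of_mem_span
        (show z ∈ Submodule.span (QA Ω) ({1} ∪ (S : Set Ω)) from h2)
      refine ⟨T.filter fun b => b ∈ S,
        fun b hb => (Finset.mem_filter.1 hb).2, fun _ => ?_⟩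
      refine Submodule.span_mono ?_ hT2
      intro y hy
      rcases hT1 hy with h3 | h3
      · exact Or.inl h3
      · exact Or.inr (Finset.mem_coe.2 (Finset.mem_filter.2 ⟨Finset.mem_coe.1 hy, h3⟩))
    · exact ⟨∅, fun b hb => absurd hb (Finset.notMem_empty b), fun h => absurd h hz⟩
  choose B hB1 hB2 using h1
  refine ⟨G.biUnion B, fun b hb => ?_, ?_⟩
  · obtain ⟨z, -, hz⟩ := Finset.mem_biUnion.1 hb
    exact hB1 z b hz
  · rw [Submodule.span_le]
    intro z hz
    refine Submodule.span_mono ?_ (hB2 z hz)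
    refine Set.union_subset_union_right _ ?_
    intro y hy
    exact Finset.mem_coe.2 (Finset.mem_biUnion.2 ⟨z, hz, Finset.mem_coe.1 hy⟩)

/-- the numbers `l j` are linearly independent over `ℚ` modulo the span of `B` -/
def IndepMod (B : Set Ω) {ι : Type} [Fintype ι] (l : ι → Ω) : Prop :=
  ∀ c : ι → ℚ, ∑ j, (c j : Ω) * l j ∈ Submodule.span ℚ B → c = 0

/-- **Baker's theorem** modulo a space of finite dimension -/
theorem baker_mod (hS : LogData S) (B : Set Ω) (hB : ∀ b ∈ B, b ∈ S) {κ : Type}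
    [Fintype κ] (l : κ → Ω) (hl : ∀ j, l j ∈ S) (hind : IndepMod B l)
    (c : κ → (QA Ω)) (hc : ∑ j, (c j : Ω) * l j ∈ Submodule.span (QA Ω) ({1} ∪ B)) : c = 0 := by
  classical
  obtain ⟨b, hb1, hb2, hb3⟩ := exists_linearIndependent ℚ B
  have hsum : LinearIndependent ℚ (Sum.elim (fun x : b => (x : Ω)) l) := by
    rw [linearIndependent_sum]
    refine ⟨hb3, ?_, ?_⟩
    · rw [Fintype.linearIndependent_iff]
      intro g hg i
      have h1 : g = 0 := by
        apply hind
        have h2 : ∑ j, ((g j : ℚ) : Ω) * (Sum.elim (fun x : b => (x : Ω)) l ∘ Sum.inr) j = 0 := by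
          rw [← hg]
          exact Finset.sum_congr rfl fun j _ => (Rat.smul_def _ _).symm
        have h3 : ∑ j, ((g j : ℚ) : Ω) * l j = 0 := h2
        rw [h3]
        exact Submodule.zero_mem _
      rw [h1]
      rfl
    · rw [Submodule.disjoint_def]
      intro z hz1 hz2
      rw [Submodule.mem_span_range_iff_exists_fun] at hz2
      obtain ⟨g, hg⟩ := hz2
      have h2 : ∑ j, ((g j : ℚ) : Ω) * l j = z := by
        rw [← hg]
        exact Finset.sum_congr rfl fun j _ => (Rat.smul_def _ _).symm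
      have h3 : g = 0 := by
        apply hind
        rw [h2, ← hb2]
        have h4 : Set.range (Sum.elim (fun x : b => (x : Ω)) l ∘ Sum.inl) = b := by
          ext y
          simp
        rw [h4] at hz1
        exact hz1
      rw [← h2, h3]
      simp
  have hopt := hS.opt (Sum.elim (fun x : b => (x : Ω)) l) (by
    rintro (x | j)
    · exact hB _ (hb1 x.2)
    · exact hl j) hsum
  let F : Option (b ⊕ κ) → Ω := fun o => o.elim 1 (Sum.elim (fun x : b => (x : Ω)) l)
  have hF : LinearIndependent (QA Ω) F := hopt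
  have hdis := hF.disjoint_span_image
    (s := {o | o = none ∨ ∃ x, o = some (Sum.inl x)})
    (t := Set.range fun j : κ => some (Sum.inr j)) (by
      rw [Set.disjoint_left]
      rintro o (rfl | ⟨x, rfl⟩) ⟨j, hj⟩
      · exact absurd hj (by simp)
      · exact absurd hj (by simp))
  have hz : ∑ j, (c j : Ω) * l j = 0 := by
    refine Submodule.disjoint_def.1 hdis _ ?_ ?_
    · refine (Submodule.span_le.2 ?_) hc
      rintro y (hy | hy)
      · refine Submodule.subset_span ⟨none, Or.inl rfl, ?_⟩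
        exact (Set.mem_singleton_iff.1 hy).symm
      · have h1 : y ∈ Submodule.span ℚ b := by
          rw [hb2]
          exact Submodule.subset_span hy
        have h2 : Submodule.span ℚ b ≤ (Submodule.span (QA Ω)
            (F '' {o | o = none ∨ ∃ x, o = some (Sum.inl x)})).restrictScalars ℚ := by
          rw [Submodule.span_le]
          intro x hx
          exact Submodule.subset_span ⟨some (Sum.inl ⟨x, hx⟩), Or.inr ⟨_, rfl⟩, rfl⟩
        exact h2 h1
    · refine Submodule.sum_mem _ fun j _ => ?_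
      rw [← qsmul]
      exact Submodule.smul_mem _ _ (Submodule.subset_span ⟨some (Sum.inr j), ⟨j, rfl⟩, rfl⟩)
  have hl' : LinearIndependent (QA Ω) l := by
    have := hF.comp (fun j : κ => some (Sum.inr j)) (by
      intro i j hij
      simpa using hij)
    exact this
  rw [Fintype.linearIndependent_iff] at hl'
  funext j
  refine hl' c ?_ j
  simp_rw [qsmul]
  exact hz

/-- **Structure theorem.** -/
theorem struct (hS : LogData S) (X : Submodule (QA Ω) Ω) (hX : X.FG) :
    ∃ B : Finset Ω, (∀ b ∈ B, b ∈ S) ∧ ∀ (κ : Type) [Fintype κ]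
      (l : κ → Ω), (∀ j, l j ∈ S) → ∀ Y ≤ X, ∀ x₀ ∈ X, ∀ x : κ → Ω,
      (∀ j, x j ∈ X) → x₀ + ∑ j, x j * l j ∈ Y * LtE (S : Set Ω) →
      ∀ j, l j ∉ Submodule.span ℚ ((B : Set Ω) ∪ l '' {i | i ≠ j}) → x j ∈ Y := by
  classical
  have hXf : Module.Finite (QA Ω) X := Module.Finite.iff_fg.2 hX
  let bX := Module.finBasis (QA Ω) X
  have hx : LinearIndependent (QA Ω) (fun i => (bX i : Ω)) :=
    bX.linearIndependent.map' X.subtype X.ker_subtype
  obtain ⟨W, hW1, hW2, hW3⟩ := exists_W hS _ hx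
  obtain ⟨B, hB1, hB2⟩ := exists_B W hW1 hW2
  refine ⟨B, hB1, fun κ _ l hl Y hYX x₀ hx₀ x hxX hrel j hj => ?_⟩
  -- representation of the elements of `Y * LtE (S : Set Ω)`
  have hrep : ∀ z ∈ Y * LtE (S : Set Ω), ∃ a : Fin (finrank (QA Ω) X) → Ω, (∀ i, a i ∈ LtE (S : Set Ω)) ∧
      ∑ i, (bX i : Ω) * a i = z ∧ ∀ φ : Fin (finrank (QA Ω) X) → (QA Ω),
        (∀ y : X, (y : Ω) ∈ Y → ∑ i, φ i * bX.repr y i = 0) → ∑ i, (φ i : Ω) * a i = 0 := by
    intro z hz
    induction hz using Submodule.mul_induction_on' with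
    | mem_mul_mem y hy lam hlam =>
      refine ⟨fun i => (bX.repr ⟨y, hYX hy⟩ i : Ω) * lam, fun i => ?_, ?_, fun φ hφ => ?_⟩
      · exact lt_mul (mem_QA.1 (bX.repr ⟨y, hYX hy⟩ i).2) hlam
      · have h1 := congrArg (fun w : X => (w : Ω)) (bX.sum_repr ⟨y, hYX hy⟩)
        simp only [Submodule.coe_sum, Submodule.coe_smul] at h1
        conv_rhs => rw [← h1]
        rw [Finset.sum_mul]
        refine Finset.sum_congr rfl fun i _ => ?_
        rw [qsmul]
        ring
      · have h1 := hφ ⟨y, hYX hy⟩ hy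
        have h2 := congrArg (fun w : (QA Ω) => (w : Ω)) h1
        have h3 : ∑ i, (φ i : Ω) * ((bX.repr ⟨y, hYX hy⟩ i : Ω) * lam) =
            ((∑ i, φ i * bX.repr ⟨y, hYX hy⟩ i : (QA Ω)) : Ω) * lam := by
          push_cast
          rw [Finset.sum_mul]
          refine Finset.sum_congr rfl fun i _ => ?_
          ring
        rw [h3, h1]
        simp
    | add z _ z' _ hz hz' =>
      obtain ⟨a, h1, h2, h3⟩ := hz
      obtain ⟨a', h1', h2', h3'⟩ := hz'
      refine ⟨fun i => a i + a' i, fun i => (LtE (S : Set Ω)).add_mem (h1 i) (h1' i), ?_, fun φ hφ => ?_⟩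
      · simp only [mul_add, Finset.sum_add_distrib, h2, h2']
      · simp only [mul_add, Finset.sum_add_distrib, h3 φ hφ, h3' φ hφ, add_zero]
  obtain ⟨a, ha1, ha2, ha3⟩ := hrep _ hrel
  -- the coordinates
  have hcoord : ∀ y : X, (y : Ω) = ∑ i, (bX i : Ω) * (bX.repr y i : Ω) := by
    intro y
    have h1 := congrArg (fun w : X => (w : Ω)) (bX.sum_repr y)
    simp only [Submodule.coe_sum, Submodule.coe_smul] at h1
    rw [← h1]
    refine Finset.sum_congr rfl fun i _ => ?_
    rw [qsmul]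
    ring
  let A : Fin (finrank (QA Ω) X) → Ω := fun i =>
    (bX.repr ⟨x₀, hx₀⟩ i : Ω) + ∑ j, (bX.repr ⟨x j, hxX j⟩ i : Ω) * l j - a i
  have hA1 : ∀ i, A i ∈ LtE (S : Set Ω) := by
    intro i
    refine (LtE (S : Set Ω)).sub_mem ((LtE (S : Set Ω)).add_mem (lt_alg (mem_QA.1 (bX.repr ⟨x₀, hx₀⟩ i).2))
      ((LtE (S : Set Ω)).sum_mem fun j _ => lt_mul (mem_QA.1 (bX.repr ⟨x j, hxX j⟩ i).2) (lt_log (hl j)))) (ha1 i)
  have hA2 : ∑ i, (bX i : Ω) * A i = 0 := by
    have h1 : ∑ i, (bX i : Ω) * A i = (x₀ + ∑ j, x j * l j) - ∑ i, (bX i : Ω) * a i := by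
      simp only [A, mul_sub, mul_add, Finset.sum_sub_distrib, Finset.sum_add_distrib]
      congr 2
      · exact (hcoord ⟨x₀, hx₀⟩).symm
      · simp only [Finset.mul_sum]
        rw [Finset.sum_comm]
        refine Finset.sum_congr rfl fun j _ => ?_
        have h7 : x j = ∑ i, (bX i : Ω) * (bX.repr ⟨x j, hxX j⟩ i : Ω) := hcoord ⟨x j, hxX j⟩
        have h8 : ∑ i, (bX i : Ω) * ((bX.repr ⟨x j, hxX j⟩ i : Ω) * l j) =
            (∑ i, (bX i : Ω) * (bX.repr ⟨x j, hxX j⟩ i : Ω)) * l j := by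
          rw [Finset.sum_mul]
          refine Finset.sum_congr rfl fun i _ => ?_
          ring
        rw [h8, ← h7]
    rw [h1, ha2, sub_self]
  have hA3 := hW3 A hA1 hA2
  -- functionals which vanish on `Y`
  have hker : ∀ φ : Fin (finrank (QA Ω) X) → (QA Ω),
      (∀ y : X, (y : Ω) ∈ Y → ∑ i, φ i * bX.repr y i = 0) →
      ∑ i, φ i * bX.repr ⟨x j, hxX j⟩ i = 0 := by
    intro φ hφ
    have h1 : ∑ i, (φ i : Ω) * A i ∈ Submodule.span (QA Ω) ({1} ∪ (B : Set Ω)) := by
      refine Submodule.sum_mem _ fun i _ => ?_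
      rw [← qsmul]
      exact Submodule.smul_mem _ _ (hB2 (hA3 i))
    have h2 : ∑ i, (φ i : Ω) * A i = ((∑ i, φ i * bX.repr ⟨x₀, hx₀⟩ i : (QA Ω)) : Ω) +
        ∑ j, ((∑ i, φ i * bX.repr ⟨x j, hxX j⟩ i : (QA Ω)) : Ω) * l j := by
      simp only [A, mul_sub, mul_add, Finset.sum_sub_distrib, Finset.sum_add_distrib]
      rw [ha3 φ hφ, sub_zero]
      push_cast
      congr 1
      simp only [Finset.mul_sum, Finset.sum_mul]
      rw [Finset.sum_comm]
      refine Finset.sum_congr rfl fun j _ => ?_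
      refine Finset.sum_congr rfl fun i _ => ?_
      ring
    have h3 : ∑ j, ((∑ i, φ i * bX.repr ⟨x j, hxX j⟩ i : (QA Ω)) : Ω) * l j ∈
        Submodule.span (QA Ω) ({1} ∪ (B : Set Ω)) := by
      have h4 : ((∑ i, φ i * bX.repr ⟨x₀, hx₀⟩ i : (QA Ω)) : Ω) ∈
          Submodule.span (QA Ω) ({1} ∪ (B : Set Ω)) := by
        have h5 := Submodule.smul_mem (Submodule.span (QA Ω) ({1} ∪ (B : Set Ω)))
          (∑ i, φ i * bX.repr ⟨x₀, hx₀⟩ i) (Submodule.subset_span (Or.inl rfl))
        rwa [qsmul, mul_one] at h5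
      rw [h2] at h1
      have h6 := Submodule.sub_mem _ h1 h4
      rwa [add_sub_cancel_left] at h6
    have hindep : IndepMod ((B : Set Ω) ∪ l '' {i | i ≠ j}) (fun _ : Fin 1 => l j) := by
      intro c hc
      rw [Fin.sum_univ_one] at hc
      by_contra hc0
      have hc0' : c 0 ≠ 0 := by
        intro h
        apply hc0
        funext i
        rw [Subsingleton.elim i 0, h]
        rfl
      apply hj
      have h4 := Submodule.smul_mem _ (c 0)⁻¹ hc
      rw [Rat.smul_def, ← mul_assoc, ← Rat.cast_mul, inv_mul_cancel₀ hc0', Rat.cast_one,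
        one_mul] at h4
      exact h4
    have h4 := baker_mod hS ((B : Set Ω) ∪ l '' {i | i ≠ j}) (by
      rintro b (hb | ⟨i, -, rfl⟩)
      · exact hB1 b (Finset.mem_coe.1 hb)
      · exact hl i) (fun _ : Fin 1 => l j) (fun _ => hl j) hindep
      (fun _ => ∑ i, φ i * bX.repr ⟨x j, hxX j⟩ i) (by
        rw [Fin.sum_univ_one]
        rw [← Finset.add_sum_erase _ _ (Finset.mem_univ j)] at h3
        have h5 : ∑ i ∈ Finset.univ.erase j, ((∑ i', φ i' * bX.repr ⟨x i, hxX i⟩ i' : (QA Ω)) : Ω) * l i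
            ∈ Submodule.span (QA Ω) ({1} ∪ ((B : Set Ω) ∪ l '' {i | i ≠ j})) := by
          refine Submodule.sum_mem _ fun i hi => ?_
          rw [← qsmul]
          exact Submodule.smul_mem _ _ (Submodule.subset_span
            (Or.inr (Or.inr ⟨i, (Finset.mem_erase.1 hi).1, rfl⟩)))
        have h6 := Submodule.sub_mem _ (Submodule.span_mono (Set.union_subset_union_right _
          Set.subset_union_left) h3) h5
        rwa [add_sub_cancel_right] at h6)
    exact congrFun h4 0
  -- conclusion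
  by_contra hne
  let YX : Submodule (QA Ω) X := Y.comap X.subtype
  have hne' : (⟨x j, hxX j⟩ : X) ∉ YX := hne
  obtain ⟨f, hf1, hf2⟩ := Submodule.exists_le_ker_of_notMem hne'
  have hfφ : ∀ y : X, f y = ∑ i, f (bX i) * bX.repr y i := by
    intro y
    conv_lhs => rw [← bX.sum_repr y]
    rw [map_sum]
    refine Finset.sum_congr rfl fun i _ => ?_
    rw [map_smul, smul_eq_mul, mul_comm]
  have h5 := hker (fun i => f (bX i)) (fun y hy => by
    rw [← hfφ y]
    exact hf2 hy)
  rw [← hfφ] at h5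
  exact hf1 h5

end Pool.Agent.H594.PD
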