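import Mathlib
import Pool.Agent.H594.PD.Struct

set_option autoImplicit false
set_option linter.unusedSectionVars false

/-!
# Linear relations between logarithms and rational functionals of the coefficients: general fields
-/

namespace Pool.Agent.H594.PD

open Finset
open Pool.Agent.W254.PA (Hyp LtE)
open Pool.Agent.W254.Ab (QA mem_QA)

variable {Ω : Type} [Field Ω] [CharZero Ω] {S : Submodule ℚ Ω}

/-- **The dual form of the structure theorem.** -/
theorem struct2 (hS : LogData S) (X : Submodule (QA Ω) Ω) (hX : X.FG) :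
    ∃ B : Finset Ω, (∀ b ∈ B, b ∈ S) ∧ ∀ (k : ℕ) (l : Fin k → Ω),
      (∀ j, l j ∈ S) → ∀ Y ≤ X, ∀ x₀ ∈ X, ∀ x : Fin k → Ω,
      (∀ j, x j ∈ X) → x₀ + ∑ j, x j * l j ∈ Y * LtE (S : Set Ω) →
      ∀ g : Ω →ₗ[ℚ] ℚ, (∀ y ∈ Y, g y = 0) →
        ∑ j, g (x j) • l j ∈ Submodule.span ℚ (B : Set Ω) := by
  classical
  obtain ⟨B, hB1, hB2⟩ := struct hS X hX
  refine ⟨B, hB1, fun k l hl Y hY x₀ hx₀ x hx hrel g hg => ?_⟩
  let W : Submodule ℚ Ω := Submodule.span ℚ (B : Set Ω)
  let v : Fin k → Ω ⧸ W := fun j => W.mkQ (l j)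
  obtain ⟨b, -, -, hb1, hb2⟩ := exists_linearIndepOn_extension
    (K := ℚ) (v := v) (s := (∅ : Set (Fin k))) (t := Set.univ)
    (linearIndepOn_empty ℚ v) (Set.subset_univ _)
  have hq : ∀ j, ∃ q : Fin k → ℚ, (∀ i, i ∉ b → q i = 0) ∧ l j - ∑ i, q i • l i ∈ W := by
    intro j
    have h1 : v j ∈ Submodule.span ℚ (v '' b) := hb1 ⟨j, Set.mem_univ j, rfl⟩
    obtain ⟨t, ht, c, hc⟩ := (Submodule.mem_span_image_iff_exists_fun ℚ).1 h1
    refine ⟨fun i => if h : i ∈ t then c ⟨i, h⟩ else 0, fun i hi => dif_neg fun h => hi (ht h), ?_⟩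
    have h2 : ∑ i, (if h : i ∈ t then c ⟨i, h⟩ else 0) • l i = ∑ i : t, c i • l i := by
      have h3 : ∑ i : t, c i • l i = ∑ i : t, (if h : (i : Fin k) ∈ t then c ⟨i, h⟩ else 0) •
          l (i : Fin k) := by
        refine Finset.sum_congr rfl fun i _ => ?_
        rw [dif_pos i.2]
      rw [h3, Finset.sum_coe_sort t (fun i => (if h : i ∈ t then c ⟨i, h⟩ else 0) • l i)]
      symm
      refine Finset.sum_subset (Finset.subset_univ t) fun i _ hi => ?_
      rw [dif_neg hi, zero_smul]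
    rw [h2]
    rw [← Submodule.Quotient.mk_eq_zero, Submodule.Quotient.mk_sub, sub_eq_zero]
    have h4 : (Submodule.Quotient.mk (∑ i : t, c i • l i) : Ω ⧸ W) = ∑ i : t, c i • v i := by
      have h5 := map_sum W.mkQ (fun i : t => c i • l i) Finset.univ
      simp only [Submodule.mkQ_apply, Submodule.Quotient.mk_smul] at h5
      exact h5
    rw [h4, hc]
    rfl
  choose q hq1 hq2 using hq
  let β : Fin k → Ω := fun j => l j - ∑ i, q j i • l i
  have hβ : ∀ j, β j ∈ S := fun j =>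
    S.sub_mem (hl j) (S.sum_mem fun i _ => S.smul_mem _ (hl i))
  let lam : b ⊕ Fin k → Ω := Sum.elim (fun i : b => l i) β
  let y : b ⊕ Fin k → Ω := Sum.elim (fun i : b => ∑ j, (q j i : Ω) * x j) x
  have hsum : ∑ i, y i * lam i = ∑ j, x j * l j := by
    rw [Fintype.sum_sum_type]
    show ∑ i : b, (∑ j, (q j i : Ω) * x j) * l i + ∑ j, x j * β j = _
    have h1 : ∑ i : b, (∑ j, (q j i : Ω) * x j) * l i = ∑ i, (∑ j, (q j i : Ω) * x j) * l i := by
      rw [Finset.sum_set_coe b (f := fun i => (∑ j, (q j i : Ω) * x j) * l i)]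
      refine Finset.sum_subset (Finset.subset_univ _) fun i _ hi => ?_
      have hi' : i ∉ b := fun h => hi (Set.mem_toFinset.2 h)
      simp [hq1 _ i hi']
    rw [h1]
    have h3 : ∀ j, x j * β j = x j * l j - ∑ i, (q j i : Ω) * x j * l i := by
      intro j
      show x j * (l j - ∑ i, q j i • l i) = _
      rw [mul_sub, Finset.mul_sum]
      congr 1
      refine Finset.sum_congr rfl fun i _ => ?_
      rw [Rat.smul_def]
      ring
    simp only [h3, Finset.sum_sub_distrib, Finset.sum_mul]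
    rw [Finset.sum_comm]
    ring
  have hyX : ∀ i, y i ∈ X := by
    rintro (i | j)
    · refine X.sum_mem fun j _ => ?_
      have h1 := X.smul_mem ((q j i : ℚ) : (QA Ω)) (hx j)
      rw [qsmul] at h1
      exact_mod_cast h1
    · exact hx j
  have hmain : ∀ i : b, ∑ j, (q j i : Ω) * x j ∈ Y := by
    intro i
    refine hB2 (b ⊕ Fin k) lam ?_ Y hY x₀ hx₀ y hyX (by rw [hsum]; exact hrel) (Sum.inl i) ?_
    · rintro (i | j)
      · exact hl i
      · exact hβ j
    · intro hmem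
      have h1 := (linearIndepOn_iff_notMem_span.1 hb2) i i.2
      apply h1
      have h2 : W.mkQ (lam (Sum.inl i)) ∈ (Submodule.span ℚ ((B : Set Ω) ∪
          lam '' {i' | i' ≠ Sum.inl i})).map W.mkQ := ⟨_, hmem, rfl⟩
      rw [Submodule.map_span] at h2
      refine (Submodule.span_le.2 ?_) h2
      rintro _ ⟨w, (hw | ⟨i', hi', rfl⟩), rfl⟩
      · have h3 : W.mkQ w = 0 := by
          rw [Submodule.mkQ_apply, Submodule.Quotient.mk_eq_zero]
          exact Submodule.subset_span hw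
        rw [h3]
        exact Submodule.zero_mem _
      · rcases i' with i' | j
        · refine Submodule.subset_span ⟨i', ⟨i'.2, ?_⟩, rfl⟩
          intro h4
          apply hi'
          show Sum.inl i' = Sum.inl i
          rw [Sum.inl.injEq]
          exact Subtype.ext h4
        · have h3 : W.mkQ (lam (Sum.inr j)) = 0 := by
            rw [Submodule.mkQ_apply, Submodule.Quotient.mk_eq_zero]
            exact hq2 j
          rw [h3]
          exact Submodule.zero_mem _
  -- conclusion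
  have hzero : ∀ i, ∑ j, q j i * g (x j) = 0 := by
    intro i
    by_cases hi : i ∈ b
    · have h1 := hg _ (hmain ⟨i, hi⟩)
      rw [map_sum] at h1
      rw [← h1]
      refine Finset.sum_congr rfl fun j _ => ?_
      have h2 : (q j i : Ω) * x j = q j i • x j := (Rat.smul_def _ _).symm
      rw [h2, map_smul, smul_eq_mul]
    · simp [hq1 _ i hi]
  have hfin : ∑ j, g (x j) • l j = ∑ j, g (x j) • β j := by
    have h1 : ∀ j, g (x j) • β j = g (x j) • l j - ∑ i, (q j i * g (x j)) • l i := by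
      intro j
      show g (x j) • (l j - ∑ i, q j i • l i) = _
      rw [smul_sub, Finset.smul_sum]
      congr 1
      refine Finset.sum_congr rfl fun i _ => ?_
      rw [smul_smul, mul_comm]
    simp only [h1, Finset.sum_sub_distrib]
    rw [Finset.sum_comm]
    have h2 : ∑ i, ∑ j, (q j i * g (x j)) • l i = 0 := by
      refine Finset.sum_eq_zero fun i _ => ?_
      rw [← Finset.sum_smul, hzero, zero_smul]
    rw [h2, sub_zero]
  rw [hfin]
  exact W.sum_mem fun j _ => W.smul_mem _ (hq2 j)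

/-- a rational functional which vanishes on `Y` -/
theorem exists_g (Y : Submodule (QA Ω) Ω) {x : Ω} (hx : x ∉ Y) :
    ∃ g : Ω →ₗ[ℚ] ℚ, (∀ y ∈ Y, g y = 0) ∧ g x ≠ 0 := by
  obtain ⟨g, hg1, hg2⟩ := Submodule.exists_le_ker_of_notMem
    (show x ∉ (Y.restrictScalars ℚ) from hx)
  exact ⟨g, fun y hy => hg2 hy, hg1⟩

/-- **Relations between logarithms which are linearly independent modulo a space of finite
dimension.** -/
theorem free_abs (hS : LogData S) (X : Submodule (QA Ω) Ω) (hX : X.FG) :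
    ∃ B : Finset Ω, (∀ b ∈ B, b ∈ S) ∧ ∀ (k : ℕ) (l : Fin k → Ω), (∀ j, l j ∈ S) →
      (∀ m : Fin k → ℤ, m ≠ 0 → ∑ j, (m j : Ω) * l j ∉ Submodule.span ℚ (B : Set Ω)) →
      ∀ Y ≤ X, ∀ x₀ ∈ X, ∀ x : Fin k → Ω, (∀ j, x j ∈ X) →
        x₀ + ∑ j, x j * l j ∈ Y * LtE (S : Set Ω) → ∀ j, x j ∈ Y := by
  classical
  obtain ⟨B, hB1, hB2⟩ := struct2 hS X hX
  refine ⟨B, hB1, fun k l hl hind Y hY x₀ hx₀ x hx hrel i => ?_⟩
  by_contra hi
  obtain ⟨g, hg, hgi⟩ := exists_g Y hi
  let N : ℕ := ∏ j, (g (x j)).den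
  have hN : N ≠ 0 := Finset.prod_ne_zero_iff.2 fun j _ => (g (x j)).den_ne_zero
  have hint : ∀ j, ∃ m : ℤ, (m : ℚ) = N * g (x j) := by
    intro j
    obtain ⟨c, hc⟩ : (g (x j)).den ∣ N := Finset.dvd_prod_of_mem _ (Finset.mem_univ j)
    refine ⟨c * (g (x j)).num, ?_⟩
    rw [hc]
    push_cast
    have h1 := Rat.mul_den_eq_num (g (x j))
    rw [← h1]
    ring
  choose m hm using hint
  have hspan := hB2 k l hl Y hY x₀ hx₀ x hx hrel g hg
  refine hind m ?_ ?_
  · intro h0
    have h1 := hm i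
    rw [h0, Pi.zero_apply, Int.cast_zero] at h1
    exact (mul_ne_zero (Nat.cast_ne_zero.2 hN) hgi) h1.symm
  · have h1 : ∑ j, (m j : Ω) * l j = (N : ℚ) • ∑ j, g (x j) • l j := by
      rw [Finset.smul_sum]
      refine Finset.sum_congr rfl fun j _ => ?_
      rw [smul_smul, ← hm, Rat.smul_def]
      push_cast
      rfl
    rw [h1]
    exact Submodule.smul_mem _ _ hspan

end Pool.Agent.H594.PD
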