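import Mathlib
import Pool.Agent.H594.PD.Dual
import Pool.Agent.H594.ML.Hull

set_option autoImplicit false
set_option linter.unusedSectionVars false

/-!
# The embeddings of the algebraic numbers in the algebraic closure of the `p`-adic numbers, and the
`p`-adic logarithms of algebraic numbers
-/

namespace Pool.Agent.H594.PD

open Finset
open Pool.Agent.W254.PA (Hyp LtE hyp_padic optP_indep)
open Pool.Agent.W254.Ab (QA mem_QA)
open Pool.Agent.W245.PB (IsIwasawaLog exists_near)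
open Pool.Agent.Helper259.AbsHt Pool.Agent.Y215.SK

section general

variable {Ω : Type} [Field Ω] [CharZero Ω] (em : Qbar →+* Ω)

theorem em_alg (x : Qbar) : IsAlgebraic ℚ (em x) := by
  have h : IsAlgebraic ℚ x := Pool.Agent.H594.ML.qbar_alg.isAlgebraic x
  exact h.algHom (RingHom.toRatAlgHom em)

theorem exists_em {z : Ω} (hz : IsAlgebraic ℚ z) : ∃ x, em x = z := by
  let _ : Algebra Qbar Ω := em.toAlgebra
  have hint : IsIntegral Qbar z := by
    have h1 : IsIntegral ℚ z := hz.isIntegral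
    obtain ⟨p, hp1, hp2⟩ := h1
    refine ⟨p.map (algebraMap ℚ Qbar), hp1.map _, ?_⟩
    rw [Polynomial.eval₂_map]
    have h2 : (algebraMap Qbar Ω).comp (algebraMap ℚ Qbar) = algebraMap ℚ Ω := RingHom.ext_rat _ _
    rw [h2]
    exact hp2
  have h3 := IsAlgClosed.degree_eq_one_of_irreducible Qbar (minpoly.irreducible hint)
  obtain ⟨x, hx⟩ := minpoly.mem_range_of_degree_eq_one Qbar z h3
  exact ⟨x, hx⟩

/-- the unit of `Qbar` over a nonzero algebraic number -/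
theorem exists_emu {z : Ω} (hz : IsAlgebraic ℚ z) (h0 : z ≠ 0) : ∃ u : Qbarˣ, z = em u := by
  obtain ⟨x, hx⟩ := exists_em em hz
  have hx0 : x ≠ 0 := by
    rintro rfl
    apply h0
    rw [← hx, map_zero]
  exact ⟨Units.mk0 x hx0, hx.symm⟩

theorem emu_inj {u v : Qbarˣ} (h : em u = em v) : u = v := Units.ext (em.injective h)

end general

variable {p : ℕ} [hp : Fact p.Prime] {L : PadicAlgCl p → PadicAlgCl p} (hL : IsIwasawaLog p L)

/-- the logarithms of algebraic numbers -/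
def logsP : Submodule ℚ (PadicAlgCl p) where
  carrier := {z | ∃ α : PadicAlgCl p, α ≠ 0 ∧ IsAlgebraic ℚ α ∧ z = L α}
  add_mem' := by
    rintro _ _ ⟨α, hα, ha, rfl⟩ ⟨β, hβ, hb, rfl⟩
    exact ⟨α * β, mul_ne_zero hα hβ, ha.mul hb, (hL.mul α β hα hβ).symm⟩
  zero_mem' := ⟨1, one_ne_zero, isAlgebraic_one, hL.one.symm⟩
  smul_mem' := by
    rintro q _ ⟨α, hα, ha, rfl⟩
    obtain ⟨β, hβ⟩ := IsAlgClosed.exists_pow_nat_eq (α ^ q.num) q.den_pos
    have hβ0 : β ≠ 0 := by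
      rintro rfl
      rw [zero_pow q.den_pos.ne'] at hβ
      exact zpow_ne_zero _ hα hβ.symm
    refine ⟨β, hβ0, ?_, ?_⟩
    · refine IsAlgebraic.of_pow q.den_pos ?_
      rw [hβ, ← mem_algebraicClosure_iff]
      exact zpow_mem (mem_algebraicClosure_iff.2 ha) _
    · have h1 := congrArg L hβ
      rw [hL.pow hβ0, hL.zpow hα] at h1
      have h2 : (q.den : PadicAlgCl p) ≠ 0 := Nat.cast_ne_zero.2 q.den_pos.ne'
      rw [Rat.smul_def, Rat.cast_def q]
      field_simp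
      exact h1.symm

theorem logsP_data : LogData (logsP hL) where
  hyp := hyp_padic hL
  opt := by
    intro ι l hl hli
    choose α h1 h2 h3 using hl
    have h4 : l = fun i => L (α i) := funext h3
    subst h4
    exact optP_indep hL α h1 h2 hli

include hL in
/-- the kernel of the logarithm -/
theorem log_ker {α : PadicAlgCl p} (hα : α ≠ 0) (h : L α = 0) :
    ∃ (m : ℕ) (r : ℤ), 0 < m ∧ α ^ m * (p : PadicAlgCl p) ^ r = 1 := by
  obtain ⟨m, r, hm, hmr⟩ := exists_near (p := p) hα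
  refine ⟨m, r, hm, hL.eq_one hmr ?_⟩
  have hpne : (p : PadicAlgCl p) ≠ 0 := Nat.cast_ne_zero.2 hp.out.ne_zero
  rw [hL.mul _ _ (pow_ne_zero _ hα) (zpow_ne_zero _ hpne), hL.pow hα, hL.zpow hpne, hL.prime, h]
  ring

include hL in
/-- the span of the logarithms of a group -/
theorem span_hullP (em : Qbar →+* PadicAlgCl p) {Γ : Subgroup Qbarˣ} {b : Set (PadicAlgCl p)}
    (hb : ∀ x ∈ b, ∃ u ∈ Γ, x = L (em (u : Qbarˣ))) {l : PadicAlgCl p}
    (hl : l ∈ Submodule.span ℚ b) :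
    ∃ k : ℕ, 0 < k ∧ ∃ g ∈ Γ, (k : PadicAlgCl p) * l = L (em (g : Qbarˣ)) := by
  have hne : ∀ u : Qbarˣ, em u ≠ 0 := fun u => (map_ne_zero em).2 u.ne_zero
  induction hl using Submodule.span_induction with
  | mem x hx =>
    obtain ⟨u, hu, he⟩ := hb x hx
    exact ⟨1, one_pos, u, hu, by rw [Nat.cast_one, one_mul]; exact he⟩
  | zero => exact ⟨1, one_pos, 1, Γ.one_mem, by simp [hL.one]⟩
  | add x y _ _ hx hy =>
    obtain ⟨k, hk, g, hg, he⟩ := hx
    obtain ⟨k', hk', g', hg', he'⟩ := hy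
    refine ⟨k * k', Nat.mul_pos hk hk', g ^ k' * g' ^ k,
      Γ.mul_mem (Γ.pow_mem hg _) (Γ.pow_mem hg' _), ?_⟩
    rw [Units.val_mul, Units.val_pow_eq_pow_val, Units.val_pow_eq_pow_val, map_mul, map_pow,
      map_pow, hL.mul _ _ (pow_ne_zero _ (hne g)) (pow_ne_zero _ (hne g')), hL.pow (hne g),
      hL.pow (hne g'), ← he, ← he']
    push_cast
    ring
  | smul q x _ hx =>
    obtain ⟨k, hk, g, hg, he⟩ := hx
    refine ⟨k * q.den, Nat.mul_pos hk q.den_pos, g ^ q.num, Γ.zpow_mem hg _, ?_⟩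
    rw [Units.val_zpow_eq_zpow_val, map_zpow₀, hL.zpow (hne g), ← he]
    have h2 : (q.den : PadicAlgCl p) ≠ 0 := Nat.cast_ne_zero.2 q.den_pos.ne'
    rw [Rat.smul_def, Rat.cast_def q]
    push_cast
    field_simp

/-- **Relations between the `p`-adic logarithms of algebraic numbers which are multiplicatively
independent modulo a group of finite rank.** -/
theorem free_padic (em : Qbar →+* PadicAlgCl p) (X : Submodule (QA (PadicAlgCl p)) (PadicAlgCl p))
    (hX : X.FG) :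
    ∃ Γ : Subgroup Qbarˣ, Γ.FG ∧ ∀ (k : ℕ) (α : Fin k → Qbarˣ),
      (∀ m : Fin k → ℤ, m ≠ 0 → ∏ j, α j ^ m j ∉ DivHull Γ) →
      ∀ Y ≤ X, ∀ x₀ ∈ X, ∀ x : Fin k → PadicAlgCl p, (∀ j, x j ∈ X) →
        x₀ + ∑ j, x j * L (em (α j)) ∈ Y * LtE (logsP hL : Set (PadicAlgCl p)) →
        ∀ j, x j ∈ Y := by
  classical
  have hne : ∀ u : Qbarˣ, em u ≠ 0 := fun u => (map_ne_zero em).2 u.ne_zero
  have hpne : (p : Qbar) ≠ 0 := Nat.cast_ne_zero.2 hp.out.ne_zero
  obtain ⟨B, hB1, hB2⟩ := free_abs (logsP_data hL) X hX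
  have hU : ∀ b : PadicAlgCl p, ∃ u : Qbarˣ, b ∈ B → b = L (em u) := by
    intro b
    by_cases hb : b ∈ B
    · obtain ⟨β, hβ0, hβ, e⟩ := hB1 b hb
      obtain ⟨u, hu⟩ := exists_emu em hβ hβ0
      exact ⟨u, fun _ => by rw [e, hu]⟩
    · exact ⟨1, fun h => absurd h hb⟩
  choose U hU using hU
  let T : Set Qbarˣ := {Units.mk0 (p : Qbar) hpne} ∪ U '' B
  let Γ : Subgroup Qbarˣ := Subgroup.closure T
  have hΓ : Γ.FG := (Subgroup.fg_iff _).2 ⟨T, rfl, (Set.finite_singleton _).union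
    (B.finite_toSet.image U)⟩
  refine ⟨Γ, hΓ, fun k α hind Y hY x₀ hx₀ x hx hrel => ?_⟩
  refine hB2 k (fun j => L (em (α j))) (fun j => ⟨em (α j), hne _, em_alg em _, rfl⟩) ?_ Y hY x₀
    hx₀ x hx hrel
  intro m hm hspan
  apply hind m hm
  obtain ⟨n, hn, g, hg, e⟩ := span_hullP hL em (Γ := Γ) (b := (B : Set (PadicAlgCl p)))
    (fun b hb => ⟨U b, Subgroup.subset_closure (Or.inr ⟨b, hb, rfl⟩), hU b (Finset.mem_coe.1 hb)⟩)
    hspan
  have h1 : ∑ j, (m j : PadicAlgCl p) * L (em (α j)) = L (em ((∏ j, α j ^ m j : Qbarˣ) : Qbar)) := by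
    rw [Units.coe_prod, map_prod, hL.prod _ _ (fun j _ => by
      rw [Units.val_zpow_eq_zpow_val, map_zpow₀]
      exact zpow_ne_zero _ (hne _))]
    refine Finset.sum_congr rfl fun j _ => ?_
    rw [Units.val_zpow_eq_zpow_val, map_zpow₀, hL.zpow (hne _)]
  rw [h1] at e
  set u : Qbarˣ := ∏ j, α j ^ m j with hu
  have h2 : L (em ((u ^ n * g⁻¹ : Qbarˣ) : Qbar)) = 0 := by
    rw [Units.val_mul, Units.val_pow_eq_pow_val, map_mul, map_pow,
      hL.mul _ _ (pow_ne_zero _ (hne _)) (hne _), hL.pow (hne _), Units.val_inv_eq_inv_val,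
      map_inv₀, hL.inv (hne _), ← e]
    ring
  obtain ⟨M, r, hM, h3⟩ := log_ker hL (hne _) h2
  refine ⟨n * M, Nat.mul_pos hn hM, ?_⟩
  have h4 : (u ^ n * g⁻¹) ^ M * (Units.mk0 (p : Qbar) hpne) ^ r = 1 := by
    apply emu_inj em
    rw [Units.val_mul, Units.val_pow_eq_pow_val, Units.val_zpow_eq_zpow_val, map_mul, map_pow,
      map_zpow₀, Units.val_mk0, map_natCast, h3, Units.val_one, map_one]
  have h5 : u ^ (n * M) = g ^ M * ((Units.mk0 (p : Qbar) hpne) ^ r)⁻¹ := by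
    have h6 : u ^ (n * M) = (u ^ n * g⁻¹) ^ M * g ^ M := by
      rw [mul_pow, ← pow_mul, inv_pow, inv_mul_cancel_right]
    rw [h6, eq_inv_of_mul_eq_one_left h4, mul_comm]
  rw [h5]
  exact Γ.mul_mem (Γ.pow_mem hg _) (Γ.inv_mem (Γ.zpow_mem (Subgroup.subset_closure (Or.inl rfl)) _))

end Pool.Agent.H594.PD
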