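import Mathlib
import Pool.Agent.H594.WI.Multi
import Pool.Agent.H594.WI.One

set_option autoImplicit false
set_option linter.unusedSectionVars false

/-!
# Heights of the factors which map values of rational functions to a group of finite rank, for
polynomials over an algebraic closure of `ℚ`
-/

namespace Pool.Agent.H594.PD

open Finset
open Pool.Agent.H594.ML Pool.Agent.H594.BD Pool.Agent.H594.WI
open Pool.Agent.Helper259.AbsHt Pool.Agent.Y215.SK

instance map_fin (K : IntermediateField ℚ Qbar) [FiniteDimensional ℚ K] :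
    FiniteDimensional ℚ (K.map sgA) :=
  (IntermediateField.equivMap K sgA).toLinearEquiv.finiteDimensional

theorem degLe_of {K : IntermediateField ℚ Qbar} {d : ℕ} {z : Qbar} (hz : z ∈ DegQ K d) :
    sg z ∈ DegLe (K.map sgA) d := by
  obtain ⟨P, hP, hPd, hPK, hPz⟩ := hz
  refine ⟨P.map sg, (Polynomial.map_ne_zero_iff sg_inj).2 hP, ?_, fun i => ?_, ?_⟩
  · rw [Polynomial.natDegree_map]
    exact hPd
  · rw [Polynomial.coeff_map]
    exact ⟨P.coeff i, hPK i, rfl⟩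
  · rw [Polynomial.eval_map_apply, hPz, map_zero]

theorem coeff_algC (A : Polynomial Qbar) (i : ℕ) : IsAlgebraic ℚ ((A.map sg).coeff i) := by
  rw [Polynomial.coeff_map]
  exact sg_alg _

/-- the zeros of a polynomial with algebraic coefficients -/
theorem mult_map {A : Polynomial Qbar} (hA : A ≠ 0) (a : ℂ) :
    (∃ b, a = sg b ∧ (A.map sg).rootMultiplicity a = A.rootMultiplicity b) ∨
      (∀ b, a ≠ sg b) ∧ (A.map sg).rootMultiplicity a = 0 := by
  by_cases h : ∃ b, a = sg b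
  · obtain ⟨b, rfl⟩ := h
    exact Or.inl ⟨b, rfl, (Polynomial.eq_rootMultiplicity_map sg_inj b).symm⟩
  · push Not at h
    refine Or.inr ⟨h, ?_⟩
    rw [Polynomial.rootMultiplicity_eq_zero_iff]
    intro hr
    exfalso
    have h1 : a ∈ (A.map sg).roots :=
      (Polynomial.mem_roots ((Polynomial.map_ne_zero_iff sg_inj).2 hA)).2 hr
    obtain ⟨b, hb⟩ := exists_sg (root_alg (fun i => coeff_algC A i) h1)
    exact h b hb.symm

theorem mult_le {A : Polynomial Qbar} (hA : A ≠ 0) {m : ℕ} (h : ∀ a, A.rootMultiplicity a ≤ m)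
    (a : ℂ) : (A.map sg).rootMultiplicity a ≤ m := by
  rcases mult_map hA a with ⟨b, -, hb⟩ | ⟨-, hb⟩
  · rw [hb]
    exact h b
  · rw [hb]
    exact Nat.zero_le _

/-- several functions -/
theorem q_multi (Γ : Subgroup Qbarˣ) (hΓ : Γ.FG) (K : IntermediateField ℚ Qbar)
    [FiniteDimensional ℚ K] (d : ℕ) (hd : 1 ≤ d) {k : ℕ} (A B : Fin k → Polynomial Qbar)
    (hA0 : ∀ j, A j ≠ 0) (hB0 : ∀ j, B j ≠ 0)
    (hdis : ∀ a, ∑ j, ((A j).rootMultiplicity a + (B j).rootMultiplicity a) ≤ 1)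
    (N : ℕ) (hN : ∀ j, N ≤ (A j).natDegree + (B j).natDegree) (ε : ℝ) (hε : 0 < ε) :
    ∃ C : ℝ, 0 ≤ C ∧
      ∀ z ∈ DegQ K d, (∀ j, (A j).eval z ≠ 0) → (∀ j, (B j).eval z ≠ 0) →
      ∀ (m : Fin k → ℤ), m ≠ 0 → ∀ (u : Qbarˣ), u ∈ DivHull Γ → ∀ (δ : Fin k → Qbar),
      ∀ H : ℝ, (∀ j, h1 (δ j) ≤ H) →
      ∏ j, (δ j * ((A j).eval z / (B j).eval z)) ^ m j = u →
      (((N : ℝ) - 2 * d) / 2 - ε) * h1 z - C ≤ H ∧
      (IsIntegral ℤ z → (((N : ℝ) - (2 * d - 1)) / 2 - ε) * h1 z - C ≤ H) := by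
  obtain ⟨C, hC0, hC⟩ := sqf_height Γ hΓ (K.map sgA) d hd (fun j => (A j).map sg)
    (fun j => (B j).map sg) (fun j i => coeff_algC _ i) (fun j i => coeff_algC _ i)
    (fun j => (Polynomial.map_ne_zero_iff sg_inj).2 (hA0 j))
    (fun j => (Polynomial.map_ne_zero_iff sg_inj).2 (hB0 j)) (by
      intro a
      by_cases h : ∃ b, a = sg b
      · obtain ⟨b, rfl⟩ := h
        refine le_trans (le_of_eq ?_) (hdis b)
        refine Finset.sum_congr rfl fun j _ => ?_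
        rw [← Polynomial.eq_rootMultiplicity_map sg_inj, ← Polynomial.eq_rootMultiplicity_map sg_inj]
      · have h2 : ∀ P : Polynomial Qbar, P ≠ 0 → (P.map sg).rootMultiplicity a = 0 := by
          intro P hP
          rcases mult_map hP a with ⟨b, hb, -⟩ | ⟨-, hb⟩
          · exact absurd ⟨b, hb⟩ h
          · exact hb
        simp only [h2 _ (hA0 _), h2 _ (hB0 _)]
        simp) N (fun j => by rw [Polynomial.natDegree_map, Polynomial.natDegree_map]; exact hN j)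
    ε hε
  refine ⟨C, hC0, fun z hz hAz hBz m hm u hu δ H hH he => ?_⟩
  have h := hC (sg z) (degLe_of hz) (fun j => by
    rw [Polynomial.eval_map_apply]
    exact (map_ne_zero sg).2 (hAz j)) (fun j => by
    rw [Polynomial.eval_map_apply]
    exact (map_ne_zero sg).2 (hBz j)) m hm u hu (fun j => sg (δ j)) (fun j => sg_alg _) H
    (fun j => by rw [ht_sg]; exact hH j) (by
      rw [← he, map_prod]
      refine Finset.prod_congr rfl fun j _ => ?_
      rw [map_zpow₀, map_mul, map_div₀, Polynomial.eval_map_apply, Polynomial.eval_map_apply])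
  rw [ht_sg] at h
  refine ⟨h.1, fun hi => h.2 ?_⟩
  exact (isIntegral_algHom_iff (sg.toIntAlgHom) sg_inj).2 hi

/-- one function -/
theorem q_one (Γ : Subgroup Qbarˣ) (hΓ : Γ.FG) (K : IntermediateField ℚ Qbar)
    [FiniteDimensional ℚ K] (d : ℕ) (hd : 1 ≤ d) (A B : Polynomial Qbar)
    (hA0 : A ≠ 0) (hB0 : B ≠ 0) (hAB : IsCoprime A B) (m m' : ℕ) (hm0 : 1 ≤ m) (hm0' : 1 ≤ m')
    (hm : ∀ a, A.rootMultiplicity a ≤ m) (hmi : B.natDegree - A.natDegree ≤ m)
    (hm' : ∀ a, B.rootMultiplicity a ≤ m') (hmi' : A.natDegree - B.natDegree ≤ m')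
    (ε : ℝ) (hε : 0 < ε) :
    ∃ C : ℝ, 0 ≤ C ∧ ∀ z ∈ DegQ K d, A.eval z ≠ 0 → B.eval z ≠ 0 →
      ∀ u : Qbarˣ, u ∈ DivHull Γ → ∀ δ : Qbar, δ * (A.eval z / B.eval z) = u →
      (max (A.natDegree : ℝ) B.natDegree - 2 * d * (m * m' / (m + m')) - ε) * h1 z - C ≤ h1 δ := by
  obtain ⟨C, hC0, hC⟩ := one_height Γ hΓ (K.map sgA) d hd (A.map sg) (B.map sg)
    (fun i => coeff_algC _ i) (fun i => coeff_algC _ i) ((Polynomial.map_ne_zero_iff sg_inj).2 hA0)
    ((Polynomial.map_ne_zero_iff sg_inj).2 hB0) (by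
      have h := hAB.map (Polynomial.mapRingHom sg)
      simpa using h) m m' hm0 hm0' (mult_le hA0 hm)
    (by rw [Polynomial.natDegree_map, Polynomial.natDegree_map]; exact hmi) (mult_le hB0 hm')
    (by rw [Polynomial.natDegree_map, Polynomial.natDegree_map]; exact hmi') ε hε
  refine ⟨C, hC0, fun z hz hAz hBz u hu δ he => ?_⟩
  have h := hC (sg z) (degLe_of hz) (by
    rw [Polynomial.eval_map_apply]
    exact (map_ne_zero sg).2 hAz) (by
    rw [Polynomial.eval_map_apply]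
    exact (map_ne_zero sg).2 hBz) u hu (sg δ) (by
      rw [← he, map_mul, map_div₀, Polynomial.eval_map_apply, Polynomial.eval_map_apply])
  rw [ht_sg, ht_sg, Polynomial.natDegree_map, Polynomial.natDegree_map] at h
  exact h

/-- polynomials at integral points -/
theorem q_poly (Γ : Subgroup Qbarˣ) (hΓ : Γ.FG) (K : IntermediateField ℚ Qbar)
    [FiniteDimensional ℚ K] (d : ℕ) (hd : 1 ≤ d) (A : Polynomial Qbar) (hA0 : A ≠ 0) (m : ℕ)
    (hm0 : 1 ≤ m) (hm : ∀ a, A.rootMultiplicity a ≤ m) (ε : ℝ) (hε : 0 < ε) :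
    ∃ C : ℝ, 0 ≤ C ∧ ∀ z ∈ DegQ K d, IsIntegral ℤ z → A.eval z ≠ 0 →
      ∀ u : Qbarˣ, u ∈ DivHull Γ → ∀ δ : Qbar, δ * A.eval z = u →
      (A.natDegree - (2 * d - 1) * m - ε) * h1 z - C ≤ h1 δ := by
  obtain ⟨C, hC0, hC⟩ := poly_height Γ hΓ (K.map sgA) d hd (A.map sg) (fun i => coeff_algC _ i)
    ((Polynomial.map_ne_zero_iff sg_inj).2 hA0) m hm0 (mult_le hA0 hm) ε hε
  refine ⟨C, hC0, fun z hz hzi hAz u hu δ he => ?_⟩
  have h := hC (sg z) (degLe_of hz) ((isIntegral_algHom_iff (sg.toIntAlgHom) sg_inj).2 hzi) (by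
    rw [Polynomial.eval_map_apply]
    exact (map_ne_zero sg).2 hAz) u hu (sg δ) (by
      rw [← he, map_mul, Polynomial.eval_map_apply])
  rw [ht_sg, ht_sg, Polynomial.natDegree_map] at h
  exact h

/-- from height inequalities to finiteness -/
theorem finite_of (K : IntermediateField ℚ Qbar) [FiniteDimensional ℚ K] (d : ℕ) (c κ C : ℝ)
    (h : κ < c) (S : Set Qbar) (hS : ∀ z ∈ S, z ∈ DegQ K d ∧ ∃ x : ℝ, c * h1 z - C ≤ x ∧
      x ≤ κ * h1 z) : S.Finite := by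
  refine (northcott_deg K d (C / (c - κ))).subset ?_
  intro z hz
  obtain ⟨h1', x, h2, h3⟩ := hS z hz
  refine ⟨h1', ?_⟩
  have h4 : 0 < c - κ := sub_pos.2 h
  rw [le_div_iff₀ h4]
  linarith

/-- a unit a power of which is in the hull of a group is in the hull -/
theorem hull_of_zpow {Γ : Subgroup Qbarˣ} {u : Qbarˣ} {m : ℤ} (hm : m ≠ 0)
    (h : u ^ m ∈ DivHull Γ) : u ∈ DivHull Γ := by
  obtain ⟨n, hn, hvn⟩ := h
  rw [← zpow_natCast, ← zpow_mul] at hvn
  refine ⟨(m * n).natAbs, Int.natAbs_pos.2 (mul_ne_zero hm (by exact_mod_cast hn.ne')), ?_⟩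
  rcases Int.natAbs_eq (m * n) with h | h
  · rw [h, zpow_natCast] at hvn
    exact hvn
  · rw [h, zpow_neg, zpow_natCast] at hvn
    exact (Subgroup.inv_mem_iff Γ).1 hvn

end Pool.Agent.H594.PD
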